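import Mathlib

namespace Pool.Agent.Results.MP_6bbb8b_nt.Forced

open Finset

/-- `(d k, …, d 0)_b` is an `(n,b)`-palintiple (with `k + 1` digits) whose carries are
`c 0, …, c k` (and `c (k+1) = 0`). -/
def IsPalintiple (n b k : ℕ) (d c : ℕ → ℕ) : Prop :=
  3 ≤ b ∧ 1 < n ∧ n < b ∧ 1 ≤ k ∧ d 0 ≠ 0 ∧ (∀ j ≤ k, d j < b) ∧
  (∑ j ∈ range (k + 1), d j * b ^ j = n * ∑ j ∈ range (k + 1), d (k - j) * b ^ j) ∧
  c 0 = 0 ∧ c (k + 1) = 0 ∧ ∀ j ≤ k, n * d (k - j) + c j = d j + b * c (j + 1)

lemma carry_lt {n b k : ℕ} {d c : ℕ → ℕ} (h : IsPalintiple n b k d c) :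
    ∀ j, j ≤ k + 1 → c j < n := by
  obtain ⟨hb, hn, hnb, hk, h0, hd, -, hc0, -, hrec⟩ := h
  intro j
  induction j with
  | zero => intro _; omega
  | succ j ih =>
    intro hj
    have h1 := ih (by omega)
    have h2 := hrec j (by omega)
    have h3 := hd (k - j) (by omega)
    by_contra hcon
    have h4 : n ≤ c (j + 1) := by omega
    have h5 : b * n ≤ b * c (j + 1) := Nat.mul_le_mul_left _ h4
    have h6 : n * (d (k - j) + 1) ≤ n * b := Nat.mul_le_mul_left _ h3
    nlinarith

lemma key (n b m x y c s : ℤ) (hn : 1 < n) (hm : 1 < m) (hb : 0 < b) (hx : 0 < x) (hc0 : 0 ≤ c)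
    (hcn : c < n) (hy : y = n * x + c) (hny : n * y = x + b * c) (hym : y < m)
    (hs : x * (m * y + x) = s * (m ^ 2 - 1)) : m = b := by
  have hc : 0 < c := by
    rcases hc0.lt_or_eq with h | h
    · exact h
    · exfalso
      subst h
      have h1 : n * (n * x) = x := by rw [hy] at hny; linarith
      have h2 : 1 < n * n := by nlinarith
      nlinarith
  have hN : 0 < m ^ 2 - 1 := by nlinarith
  have hy0 : 0 < y := by rw [hy]; positivity
  have hdiv : (m ^ 2 - 1) ∣ x * c * (m - b) := by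
    refine ⟨s - n * (m * s - x * y), ?_⟩
    have e1 : x * c * (m - b) = x * (m * (y - n * x) - (n * y - x)) := by
      have : y - n * x = c := by linarith
      have h2 : n * y - x = b * c := by linarith
      rw [this, h2]; ring
    rw [e1]
    linear_combination (1 - n * m) * hs
  have hnx : n * x ≤ y := by linarith
  have hxc : x * c < y := by nlinarith
  have hxc0 : 0 < x * c := by positivity
  by_contra hne
  rcases lt_or_gt_of_ne hne with h | h
  · have hpos : 0 < x * c * (b - m) := mul_pos hxc0 (by linarith)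
    have hd2 : (m ^ 2 - 1) ∣ x * c * (b - m) := by
      have : x * c * (b - m) = -(x * c * (m - b)) := by ring
      rw [this]; exact hdiv.neg_right
    have hle := Int.le_of_dvd hpos hd2
    have h1 : x * c * b = x * (n * y - x) := by rw [hny]; ring
    have h2 : x * (n * y - x) ≤ y * y := by nlinarith
    have h3 : y * y ≤ (m - 1) * (m - 1) := by nlinarith
    have h4 : 0 < x * c * m := by positivity
    nlinarith
  · have hpos : 0 < x * c * (m - b) := mul_pos hxc0 (by linarith)
    have hle := Int.le_of_dvd hpos hdiv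
    have h1 : x * c * (m - b) ≤ (m - 1) * (m - b) :=
      mul_le_mul_of_nonneg_right (by linarith) (by linarith)
    have h2 : (m - 1) * (m - b) ≤ (m - 1) * (m - 1) :=
      mul_le_mul_of_nonneg_left (by linarith) (by linarith)
    nlinarith

/-- If `p = (d k, …, d 0)_b` is a shifted-symmetric `(n,b)`-palintiple and `(e (k+2), …, e 0)_B`
is an `(m,B)`-palintiple with carries `(0, d k, …, d 0, 0)`, then `m = b`. -/
theorem result (n b k m B : ℕ) (d c e f : ℕ → ℕ)
    (hp : IsPalintiple n b k d c) (hshift : ∀ j ≤ k, c j = c (k - j + 1))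
    (hq : IsPalintiple m B (k + 2) e f)
    (hf0 : f 0 = 0) (hf : ∀ j ≤ k, f (j + 1) = d j) (hfK : f (k + 2) = 0) :
    m = b := by
  have hcl := carry_lt hp
  have hfl := carry_lt hq
  obtain ⟨hb, hn, hnb, hk, h0, hd, -, hc0, hck, hrec⟩ := hp
  obtain ⟨hB, hm, hmB, -, -, -, -, -, hfK1, hrec'⟩ := hq
  have a0 := hrec 0 (by omega)
  have ak := hrec k le_rfl
  have hs1 := hshift 1 hk
  rw [Nat.sub_add_cancel hk] at hs1
  have b0 := hrec' 0 (by omega)
  have b1 := hrec' 1 (by omega)
  have b2 := hrec' (k + 1) (by omega)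
  have b3 := hrec' (k + 2) le_rfl
  have f1 := hf 0 (by omega)
  have fk := hf k le_rfl
  have hy := hfl (k + 1) (by omega)
  have hc1 := hcl 1 (by omega)
  simp only [Nat.sub_zero, Nat.sub_self, zero_add] at a0 ak b0 b3 f1
  have r1 : k + 2 - 1 = k + 1 := by omega
  have r2 : k + 2 - (k + 1) = 1 := by omega
  rw [r1] at b1
  rw [r2] at b2
  have r3 : k + 1 + 1 = k + 2 := rfl
  rw [r3, hfK, fk] at b2
  rw [hfK, hfK1] at b3
  rw [hf0, f1] at b0
  rw [f1] at b1
  rw [hc0] at a0
  rw [hck, ← hs1] at ak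
  rw [fk] at hy
  have hx : 0 < d 0 := Nat.pos_of_ne_zero h0
  have := key (n : ℤ) b m (d 0) (d k) (c 1) ((e 0 : ℤ) * f (1 + 1) - e 1 * d 0)
    (by exact_mod_cast hn) (by exact_mod_cast hm) (by exact_mod_cast (by omega : 0 < b))
    (by exact_mod_cast hx) (by positivity) (by exact_mod_cast hc1)
    (by zify at ak; linarith) (by zify at a0; linarith) (by exact_mod_cast hy)
    (by
      zify at b0 b1 b2 b3
      linear_combination (d 0 : ℤ) * b1 + (d 0 : ℤ) * (m : ℤ) * b2
        - (f (1 + 1) : ℤ) * b0 - (f (1 + 1) : ℤ) * (m : ℤ) * b3)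
  exact_mod_cast this

end Pool.Agent.Results.MP_6bbb8b_nt.Forced
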